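import Mathlib

set_option autoImplicit false

namespace Pool.Agent.Results.MP_02ff8d_an.NonUnique

open scoped RealInnerProductSpace

/-- The Legendre-Fenchel conjugate `f*(y) = sup_x (⟨y,x⟩ - f(x))` of an extended-real function. -/
noncomputable def conj {X : Type} [NormedAddCommGroup X] [InnerProductSpace ℝ X]
    (f : X → EReal) (y : X) : EReal :=
  ⨆ x : X, (((⟪y, x⟫ : ℝ) : EReal) - f x)

noncomputable def g (x : ℝ) : ℝ := (⌈x⌉ : ℝ) * x - (⌈x⌉ : ℝ) * ((⌈x⌉ : ℝ) - 1) / 2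

lemma g_ineq (x y : ℝ) : x * (y + 1) - g x ≤ g y := by
  unfold g
  have a1 := Int.le_ceil x
  have a2 := Int.ceil_lt_add_one x
  have b1 := Int.le_ceil y
  have b2 := Int.ceil_lt_add_one y
  generalize ⌈x⌉ = k at *
  generalize ⌈y⌉ = l at *
  obtain ⟨d, rfl⟩ : ∃ d, k = l + d := ⟨k - l, by ring⟩
  obtain ⟨a, rfl⟩ : ∃ a, x = ((l + d : ℤ) : ℝ) - a := ⟨((l + d : ℤ) : ℝ) - x, by ring⟩
  obtain ⟨b, rfl⟩ : ∃ b, y = (l : ℝ) - b := ⟨l - y, by ring⟩
  push_cast at *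
  have ha : 0 ≤ a := by linarith
  have ha1 : a ≤ 1 := by linarith
  have hb : 0 ≤ b := by linarith
  have hb1 : b ≤ 1 := by linarith
  have key : 0 ≤ (d : ℝ) * (d - 1) / 2 - d * a + d * b + a * (1 - b) := by
    rcases lt_trichotomy d 1 with h | rfl | h
    · rcases eq_or_lt_of_le (show d ≤ 0 by omega) with rfl | h'
      · simp; nlinarith
      · have : (d : ℝ) ≤ -1 := by exact_mod_cast (show d ≤ -1 by omega)
        nlinarith [mul_nonneg ha (sub_nonneg.mpr hb1), mul_nonneg (sub_nonneg.mpr hb1)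
          (show (0:ℝ) ≤ -d by linarith), mul_nonneg ha (show (0:ℝ) ≤ -d by linarith)]
    · simp; nlinarith
    · have : (2 : ℝ) ≤ d := by exact_mod_cast (show 2 ≤ d by omega)
      nlinarith [mul_nonneg hb (show (0:ℝ) ≤ d - a by linarith),
        mul_nonneg (show (0:ℝ) ≤ d - 1 by linarith) (show (0:ℝ) ≤ d / 2 - a by linarith)]
  nlinarith

lemma g_fix (y : ℝ) : conj (fun x : ℝ => (g x : EReal)) (y + 1) = g y := by
  unfold conj
  apply le_antisymm
  · refine iSup_le fun x => ?_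
    rw [← EReal.coe_sub, EReal.coe_le_coe_iff]
    simpa using g_ineq x y
  · refine le_iSup_of_le (⌈y⌉ : ℝ) (le_of_eq ?_)
    rw [← EReal.coe_sub, EReal.coe_eq_coe_iff]
    simp [g]; ring

theorem result :
    ¬ ∀ (X : Type) [NormedAddCommGroup X] [InnerProductSpace ℝ X] [CompleteSpace X]
        [Nontrivial X] (τ : ℝ) (c w : X) (β : ℝ) (E : X ≃L[ℝ] X), 0 < τ →
        (∀ x y : X, ⟪E x, y⟫ = ⟪x, E y⟫) → (∀ x : X, x ≠ 0 → 0 < ⟪E x, x⟫) →
        ∀ f : X → EReal,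
          (∀ x : X, f x = (τ : EReal) * conj f (E x + c) + ((⟪w, x⟫ + β : ℝ) : EReal)) →
          ∀ x : X, f x =
            ((1 / 2 * ⟪√τ • E x, x⟫ + ⟪(1 + √τ)⁻¹ • (w + √τ • c), x⟫ +
              (β * (1 + √τ) ^ 2 + 1 / 2 * √τ * ⟪c - w, E.symm (c - w)⟫) /
                ((1 + √τ) ^ 2 * (τ + 1)) : ℝ) : EReal) := by
  intro H
  have h := H ℝ 1 1 0 0 (ContinuousLinearEquiv.refl ℝ ℝ) one_pos (by simp)
    (fun x hx => by simpa using pow_pos (abs_pos.mpr hx) 2) (fun x => (g x : EReal))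
    (fun x => by simp [g_fix]) 0
  rw [EReal.coe_eq_coe_iff] at h
  simp [g] at h
  norm_num at h

end Pool.Agent.Results.MP_02ff8d_an.NonUnique
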